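import Pool.Agent.H933.LL.Stm6

/-!
# From averages over Whitney discs to integrability

`p_whit (h : P_jen) : P_whit`.
-/

set_option autoImplicit false

open MeasureTheory Metric Set
open scoped Real ENNReal

namespace Pool.Agent.H17.LL

open Pool.Agent.H933.LL

/-- an inequality in `ℝ≥0∞` -/
lemma le_inv_mul {a b c : ℝ≥0∞} (ha : a ≠ 0) (ha' : a ≠ ⊤) (h : c * a ≤ b) : c ≤ a⁻¹ * b := by
  calc c = a⁻¹ * (c * a) := by
        rw [mul_comm c a, ← mul_assoc, ENNReal.inv_mul_cancel ha ha', one_mul]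
    _ ≤ a⁻¹ * b := by gcongr

lemma inv_mul_le {a b c : ℝ≥0∞} (ha : a ≠ 0) (ha' : a ≠ ⊤) (h : b ≤ a * c) : a⁻¹ * b ≤ c := by
  calc a⁻¹ * b ≤ a⁻¹ * (a * c) := by gcongr
    _ = c := by rw [← mul_assoc, ENNReal.inv_mul_cancel ha ha', one_mul]

/-- the area of a disc -/
lemma vol (a : ℂ) {r : ℝ} (hr : 0 ≤ r) : volume (ball a r) = ENNReal.ofReal (π * r ^ 2) := by
  have h : (NNReal.pi : ℝ≥0∞) = ENNReal.ofReal π := by
    rw [← NNReal.coe_real_pi, ENNReal.ofReal_coe_nnreal]
  rw [Complex.volume_ball, h, ← ENNReal.ofReal_pow hr, ← ENNReal.ofReal_mul (by positivity),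
    mul_comm]

/-- the pointwise bound from `P_jen` -/
lemma pt (q : ℝ) (hq : 1 < q) (C : ℝ) (hC : 0 < C)
    (hj : ∀ (m : Measure ℂ) (m0 D : ℝ) (x : ℂ → ℝ),
      m Set.univ ≤ ENNReal.ofReal m0 → 0 ≤ m0 → 1 ≤ D → AEMeasurable x m → (∀ k, 0 ≤ x k) →
      ∫⁻ k, ENNReal.ofReal (x k) ∂m ≤ ENNReal.ofReal D →
      ∫⁻ k, ENNReal.ofReal ((Real.posLog (x k)) ^ q) ∂m
        ≤ ENNReal.ofReal (C * (m0 + 1) * (1 + Real.log D) ^ q))
    (x : ℂ → ℝ) (hx : Measurable x) (hx0 : ∀ w, 0 ≤ x w) (C' d : ℝ) (hd : 0 < d) (z : ℂ)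
    (h : ∫⁻ w in ball z (d / 4), ENNReal.ofReal (x w)
      ≤ ENNReal.ofReal (Real.exp (C' * (1 + Real.posLog d⁻¹) ^ 2))) :
    (ENNReal.ofReal (d ^ 2))⁻¹ * ∫⁻ w in ball z (d / 4), ENNReal.ofReal ((Real.posLog (x w)) ^ q) ≤
      ENNReal.ofReal (C * 2 * (|C'| + 3) ^ q * (1 + Real.posLog d⁻¹) ^ (2 * q)) := by
  set L := 1 + Real.posLog d⁻¹ with hL
  have hl0 : 0 ≤ Real.posLog d⁻¹ := Real.posLog_nonneg
  have hL1 : 1 ≤ L := by linarith
  have hd2 : 0 < d ^ 2 := by positivity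
  have ha : ENNReal.ofReal (d ^ 2) ≠ 0 := by
    rw [Ne, ENNReal.ofReal_eq_zero]
    linarith
  have ha' : ENNReal.ofReal (d ^ 2) ≠ ⊤ := ENNReal.ofReal_ne_top
  set m : Measure ℂ := (ENNReal.ofReal (d ^ 2))⁻¹ • volume.restrict (ball z (d / 4)) with hm
  have hlin : ∀ f : ℂ → ℝ≥0∞, ∫⁻ w, f w ∂m = (ENNReal.ofReal (d ^ 2))⁻¹ *
      ∫⁻ w in ball z (d / 4), f w := by
    intro f
    rw [hm, lintegral_smul_measure, smul_eq_mul]
  have h1 : m univ ≤ ENNReal.ofReal 1 := by
    have e : m univ = (ENNReal.ofReal (d ^ 2))⁻¹ * volume (ball z (d / 4)) := by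
      rw [hm, Measure.smul_apply, Measure.restrict_apply MeasurableSet.univ, univ_inter,
        smul_eq_mul]
    rw [e, vol z (by positivity)]
    refine inv_mul_le ha ha' ?_
    rw [← ENNReal.ofReal_mul hd2.le]
    refine ENNReal.ofReal_le_ofReal ?_
    have := Real.pi_le_four
    nlinarith
  set D := Real.exp ((|C'| + 2) * L ^ 2) with hD
  have hLsq : 1 ≤ L ^ 2 := one_le_pow₀ hL1
  have hC0 : 0 ≤ |C'| := abs_nonneg _
  have hD1 : 1 ≤ D := Real.one_le_exp (by positivity)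
  have h2 : ∫⁻ w, ENNReal.ofReal (x w) ∂m ≤ ENNReal.ofReal D := by
    rw [hlin]
    refine inv_mul_le ha ha' (h.trans ?_)
    rw [← ENNReal.ofReal_mul hd2.le]
    refine ENNReal.ofReal_le_ofReal ?_
    have e1 : d ^ 2 = Real.exp (2 * Real.log d) := by
      rw [mul_comm, Real.exp_mul, Real.exp_log hd]
      norm_num
    rw [e1, hD, ← Real.exp_add]
    refine Real.exp_le_exp.2 ?_
    have h3 : - Real.log d ≤ Real.posLog d⁻¹ := by
      rw [← Real.log_inv]
      exact le_max_right _ _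
    have h4 : C' * L ^ 2 ≤ |C'| * L ^ 2 := mul_le_mul_of_nonneg_right (le_abs_self _) (by positivity)
    have h5 : L ≤ L ^ 2 := by nlinarith
    nlinarith
  have h3 := hj m 1 D x h1 zero_le_one hD1 hx.aemeasurable hx0 h2
  rw [hlin] at h3
  refine h3.trans (ENNReal.ofReal_le_ofReal ?_)
  have e2 : Real.log D = (|C'| + 2) * L ^ 2 := Real.log_exp _
  rw [e2]
  have h6 : 1 + (|C'| + 2) * L ^ 2 ≤ (|C'| + 3) * L ^ 2 := by nlinarith
  have h7 : (1 + (|C'| + 2) * L ^ 2) ^ q ≤ ((|C'| + 3) * L ^ 2) ^ q :=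
    Real.rpow_le_rpow (by positivity) h6 (by linarith)
  have h8 : ((|C'| + 3) * L ^ 2) ^ q = (|C'| + 3) ^ q * L ^ (2 * q) := by
    rw [Real.mul_rpow (by positivity) (by positivity), Real.rpow_mul (by positivity) 2 q,
      Real.rpow_two]
  rw [h8] at h7
  calc C * (1 + 1) * (1 + (|C'| + 2) * L ^ 2) ^ q
      ≤ C * (1 + 1) * ((|C'| + 3) ^ q * L ^ (2 * q)) := by
        exact mul_le_mul_of_nonneg_left h7 (by positivity)
    _ = _ := by ring

/-- the pairs `(z, w)` with `w` in the Whitney disc of `z` -/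
def SW (E : Set ℂ) : Set (ℂ × ℂ) := {p : ℂ × ℂ | dist p.2 p.1 < infDist p.1 E / 4}

lemma meas_SW (E : Set ℂ) : MeasurableSet (SW E) := by
  have h := continuous_infDist_pt (E : Set ℂ)
  exact (isOpen_lt (continuous_snd.dist continuous_fst) ((h.comp continuous_fst).div_const 4)).measurableSet

/-- the kernel -/
noncomputable def kr (E : Set ℂ) (z w : ℂ) : ℝ≥0∞ :=
  (ENNReal.ofReal (infDist z E ^ 2))⁻¹ * (SW E).indicator (fun _ => 1) (z, w)

lemma meas_kr (E : Set ℂ) : Measurable (Function.uncurry (kr E)) := by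
  have h1 : Measurable fun p : ℂ × ℂ => (ENNReal.ofReal (infDist p.1 E ^ 2))⁻¹ := by
    have h := (continuous_infDist_pt (E : Set ℂ)).measurable
    exact (((h.comp measurable_fst).pow_const 2).ennreal_ofReal).inv
  have h2 : Measurable fun p : ℂ × ℂ => (SW E).indicator (fun _ => (1 : ℝ≥0∞)) p :=
    measurable_const.indicator (meas_SW E)
  exact h1.mul h2

/-- the integral over `w` -/
lemma int_w (E : Set ℂ) (g : ℂ → ℝ≥0∞) (z : ℂ) :
    ∫⁻ w, kr E z w * g w = (ENNReal.ofReal (infDist z E ^ 2))⁻¹ *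
      ∫⁻ w in ball z (infDist z E / 4), g w := by
  have e : ∀ w, kr E z w * g w = (ENNReal.ofReal (infDist z E ^ 2))⁻¹ *
      (ball z (infDist z E / 4)).indicator g w := by
    intro w
    unfold kr
    by_cases h : w ∈ ball z (infDist z E / 4)
    · have h' : (z, w) ∈ SW E := h
      rw [indicator_of_mem h', indicator_of_mem h, mul_one]
    · have h' : (z, w) ∉ SW E := h
      rw [indicator_of_notMem h', indicator_of_notMem h, mul_zero, zero_mul]
  simp only [e]
  rcases eq_or_ne (infDist z E) 0 with h0 | h0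
  · have h1 : ball z (infDist z E / 4) = ∅ := by rw [h0]; simp
    rw [h1]
    simp
  · have h2 : ENNReal.ofReal (infDist z E ^ 2) ≠ 0 := by
      rw [Ne, ENNReal.ofReal_eq_zero, not_le]
      positivity
    rw [lintegral_const_mul' _ _ (ENNReal.inv_ne_top.2 h2), lintegral_indicator measurableSet_ball]

/-- the lower bound for the integral over `z` -/
lemma int_z (E : Set ℂ) (hE : IsClosed E) (hne : E.Nonempty) (r H : ℝ) (hH : infDist 0 E + |r| + 1 ≤ H)
    (w : ℂ) (hw : w ∈ ball (0 : ℂ) r) (hwE : w ∉ E) :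
    ENNReal.ofReal ((1 / (8 * H)) ^ 2) ≤ ∫⁻ z in ball (0 : ℂ) (r + 1), kr E z w := by
  have hd0 : 0 ≤ infDist (0 : ℂ) E := infDist_nonneg
  have hr0 : 0 ≤ |r| := abs_nonneg r
  have hH1 : 1 ≤ H := by linarith
  have hrr : r ≤ |r| := le_abs_self r
  set d := infDist w E with hd
  have hdpos : 0 < d := (hE.notMem_iff_infDist_pos hne).1 hwE
  have hdw : dist w 0 < r := hw
  have hdH : d ≤ H := by
    have h1 : d ≤ infDist 0 E + dist w 0 := infDist_le_infDist_add_dist
    linarith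
  set k := 1 / (8 * H) with hk
  have hk0 : 0 < k := by positivity
  have hkd1 : k * d ≤ 1 / 8 := by
    rw [hk, div_mul_eq_mul_div, one_mul, div_le_div_iff₀ (by positivity) (by norm_num)]
    linarith
  have hkd2 : k * d ≤ d / 8 := by
    rw [hk, div_mul_eq_mul_div, one_mul, div_le_div_iff₀ (by positivity) (by norm_num)]
    nlinarith
  have hz : ∀ z ∈ ball w (k * d), z ∈ ball (0 : ℂ) (r + 1) ∧ (z, w) ∈ SW E ∧
      infDist z E ^ 2 ≤ (9 / 8 * d) ^ 2 := by
    intro z hz
    have h1 : dist z w < k * d := hz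
    have h2 : d ≤ infDist z E + dist w z := infDist_le_infDist_add_dist
    have h3 : infDist z E ≤ d + dist z w := infDist_le_infDist_add_dist
    have h4 : dist w z = dist z w := dist_comm _ _
    refine ⟨?_, ?_, ?_⟩
    · have h5 : dist z 0 ≤ dist z w + dist w 0 := dist_triangle _ _ _
      rw [mem_ball]
      linarith
    · change dist w z < infDist z E / 4
      linarith
    · exact pow_le_pow_left₀ infDist_nonneg (by linarith) 2
  have hd9 : 0 < (9 / 8 * d) ^ 2 := by positivity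
  have ha : ENNReal.ofReal ((9 / 8 * d) ^ 2) ≠ 0 := by
    rw [Ne, ENNReal.ofReal_eq_zero, not_le]
    exact hd9
  calc ENNReal.ofReal (k ^ 2)
      ≤ (ENNReal.ofReal ((9 / 8 * d) ^ 2))⁻¹ * volume (ball w (k * d)) := by
        refine le_inv_mul ha ENNReal.ofReal_ne_top ?_
        rw [vol w (by positivity), ← ENNReal.ofReal_mul (by positivity)]
        refine ENNReal.ofReal_le_ofReal ?_
        have h1 := Real.pi_gt_three
        have h2 : 0 ≤ (k * d) ^ 2 := by positivity
        nlinarith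
    _ = ∫⁻ _ in ball w (k * d), (ENNReal.ofReal ((9 / 8 * d) ^ 2))⁻¹ := by
        rw [setLIntegral_const]
    _ ≤ ∫⁻ z in ball w (k * d), kr E z w := by
        refine setLIntegral_mono' measurableSet_ball fun z hz' => ?_
        obtain ⟨-, h2, h3⟩ := hz z hz'
        unfold kr
        rw [indicator_of_mem h2, mul_one]
        exact ENNReal.inv_le_inv.2 (ENNReal.ofReal_le_ofReal h3)
    _ ≤ ∫⁻ z in ball (0 : ℂ) (r + 1), kr E z w :=
        lintegral_mono_set fun z hz' => (hz z hz').1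

lemma el_ineq (a q : ℝ) (ha : 0 ≤ a) (hq : 1 < q) :
    (1 + a) ^ (2 * q) ≤ 2 ^ (2 * q) * (1 + a ^ (2 * q)) := by
  have h6 : 1 + a ≤ 2 * max 1 a := by
    rcases le_total 1 a with h | h
    · rw [max_eq_right h]; linarith
    · rw [max_eq_left h]; linarith
  have h7 : 0 ≤ a ^ (2 * q) := Real.rpow_nonneg ha _
  calc (1 + a) ^ (2 * q) ≤ (2 * max 1 a) ^ (2 * q) :=
        Real.rpow_le_rpow (by linarith) h6 (by linarith)
    _ = 2 ^ (2 * q) * (max 1 a) ^ (2 * q) := by
        rw [Real.mul_rpow (by norm_num) (by positivity)]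
    _ ≤ 2 ^ (2 * q) * (1 + a ^ (2 * q)) := by
        refine mul_le_mul_of_nonneg_left ?_ (by positivity)
        rcases le_total 1 a with h | h
        · rw [max_eq_right h]; linarith
        · rw [max_eq_left h, Real.one_rpow]; linarith

lemma fin_int (E : Set ℂ) (q : ℝ) (hq : 1 < q) (B : ℝ) (hB : 0 ≤ B) (r : ℝ)
    (hint : IntegrableOn (fun z : ℂ => (Real.posLog (infDist z E)⁻¹) ^ (2 * q)) (ball (0 : ℂ) r)) :
    ∫⁻ z in ball (0 : ℂ) r, ENNReal.ofReal (B *
      (1 + Real.posLog (infDist z E)⁻¹) ^ (2 * q)) < ⊤ := by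
  have h1 : IntegrableOn (fun _ : ℂ => (1 : ℝ)) (ball (0 : ℂ) r) :=
    integrableOn_const (by rw [Complex.volume_ball]; finiteness)
  have h4 : IntegrableOn (fun z : ℂ => B * (2 ^ (2 * q) *
      (1 + (Real.posLog (infDist z E)⁻¹) ^ (2 * q)))) (ball (0 : ℂ) r) :=
    Integrable.const_mul (Integrable.const_mul (h1.add hint) _) _
  refine lt_of_le_of_lt ?_ h4.lintegral_lt_top
  refine lintegral_mono fun z => ENNReal.ofReal_le_ofReal ?_
  exact mul_le_mul_of_nonneg_left (el_ineq _ q Real.posLog_nonneg hq) hB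

/-- the exchange of the integrals -/
lemma core (k : ℂ → ℂ → ℝ≥0∞) (hk : Measurable (Function.uncurry k)) (g : ℂ → ℝ≥0∞)
    (hg : Measurable g) (A B : Set ℂ) (hA : MeasurableSet A) (hB : MeasurableSet B) (c : ℝ≥0∞)
    (hc : ∀ᵐ w : ℂ, w ∈ A → c ≤ ∫⁻ z in B, k z w) (U : ℂ → ℝ≥0∞)
    (hU : ∀ᵐ z : ℂ, z ∈ B → ∫⁻ w, k z w * g w ≤ U z) :
    c * ∫⁻ w in A, g w ≤ ∫⁻ z in B, U z := by
  have h1 : c * ∫⁻ w in A, g w ≤ ∫⁻ w, ∫⁻ z in B, k z w * g w := by
    rw [← lintegral_const_mul _ hg]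
    have h2 : ∫⁻ w in A, c * g w ≤ ∫⁻ w in A, ∫⁻ z in B, k z w * g w := by
      refine setLIntegral_mono_ae' hA ?_
      filter_upwards [hc] with w hw hwA
      have hm : Measurable fun z => k z w := hk.comp (measurable_id.prodMk measurable_const)
      rw [lintegral_mul_const _ hm]
      exact mul_le_mul_left (hw hwA) _
    exact h2.trans (setLIntegral_le_lintegral _ _)
  have hmeas : AEMeasurable (Function.uncurry fun (w z : ℂ) => k z w * g w)
      (volume.prod (volume.restrict B)) :=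
    ((hk.comp measurable_swap).mul (hg.comp measurable_fst)).aemeasurable
  rw [lintegral_lintegral_swap hmeas] at h1
  exact h1.trans (setLIntegral_mono_ae' hB hU)

theorem p_whit (h : P_jen) : P_whit := by
  intro x E G q hq hx hx0 hE hne hE0 hint hmain
  obtain ⟨C, hC, hj⟩ := h q hq
  constructor
  · intro r
    set g : ℂ → ℝ≥0∞ := fun w => ENNReal.ofReal ((Real.posLog (x w)) ^ q) with hg
    have hgm : Measurable g :=
      ((Real.continuous_posLog.measurable.comp hx).pow_const q).ennreal_ofReal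
    have hpos : ∀ w, 0 ≤ (Real.posLog (x w)) ^ q := fun w =>
      Real.rpow_nonneg Real.posLog_nonneg q
    refine ⟨((Real.continuous_posLog.measurable.comp hx).pow_const q).aestronglyMeasurable, ?_⟩
    rw [hasFiniteIntegral_iff_ofReal (Filter.Eventually.of_forall hpos)]
    obtain ⟨C', hC'⟩ := hmain (r + 1)
    set H := infDist 0 E + |r| + 1 with hH
    have hHpos : 0 < H := by
      have := infDist_nonneg (x := (0 : ℂ)) (s := E)
      have := abs_nonneg r
      linarith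
    set c := ENNReal.ofReal ((1 / (8 * H)) ^ 2) with hc
    have hc0 : c ≠ 0 := by
      rw [hc, Ne, ENNReal.ofReal_eq_zero, not_le]
      positivity
    have hct : c ≠ ⊤ := ENNReal.ofReal_ne_top
    have hEae : ∀ᵐ z ∂(volume : Measure ℂ), z ∉ E := by
      rw [ae_iff]
      simpa using hE0
    have h2 := core (kr E) (meas_kr E) g hgm (ball (0 : ℂ) r) (ball (0 : ℂ) (r + 1))
      measurableSet_ball measurableSet_ball c
      (hEae.mono fun w hw hwr => int_z E hE hne r H le_rfl w hwr hw)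
      (fun z => ENNReal.ofReal (C * 2 * (|C'| + 3) ^ q *
          (1 + Real.posLog (infDist z E)⁻¹) ^ (2 * q)))
      (hEae.mono fun z hz hzr => by
        rw [int_w]
        exact pt q hq C hC hj x hx hx0 C' _ ((hE.notMem_iff_infDist_pos hne).1 hz) z
          (hC' z hzr hz).2)
    have h3 : ∫⁻ z in ball (0 : ℂ) (r + 1), ENNReal.ofReal (C * 2 * (|C'| + 3) ^ q *
          (1 + Real.posLog (infDist z E)⁻¹) ^ (2 * q)) < ⊤ :=
      fin_int E q hq _ (by positivity) (r + 1) (hint (r + 1))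
    have h8 : c * ∫⁻ w in ball (0 : ℂ) r, g w < ⊤ := h2.trans_lt h3
    exact (ENNReal.mul_lt_top_iff.1 h8).elim (fun h => h.2) (fun h => by
      rcases h with h | h
      · exact absurd h hc0
      · rw [h]; exact ENNReal.zero_lt_top)
  · rw [ae_iff]
    have hE0' : volume ({w | w ∉ G} ∩ E) = 0 := measure_mono_null inter_subset_right hE0
    have h1 : volume ({w | w ∉ G} ∩ Eᶜ) = 0 := by
      refine measure_null_of_locally_null _ fun z hz => ?_
      obtain ⟨hzG, hzE⟩ := hz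
      have hd : 0 < infDist z E := (hE.notMem_iff_infDist_pos hne).1 hzE
      obtain ⟨C', hC'⟩ := hmain (‖z‖ + 1)
      have h2 := (hC' z (by rw [mem_ball_zero_iff]; linarith) hzE).1
      rw [ae_restrict_iff' measurableSet_ball, ae_iff] at h2
      refine ⟨ball z (infDist z E / 4) ∩ {w | w ∉ G}, ?_, ?_⟩
      · refine Filter.inter_mem (mem_nhdsWithin_of_mem_nhds (ball_mem_nhds _ (by positivity))) ?_
        exact Filter.mem_of_superset self_mem_nhdsWithin inter_subset_left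
      · refine measure_mono_null ?_ h2
        intro w hw
        simp only [Set.mem_ofPred_eq, Classical.not_imp]
        exact ⟨hw.1, hw.2⟩
    have h3 : {w | w ∉ G} = ({w | w ∉ G} ∩ E) ∪ ({w | w ∉ G} ∩ Eᶜ) := by
      rw [← inter_union_distrib_left, union_compl_self, inter_univ]
    rw [h3]
    exact measure_union_null hE0' h1

end Pool.Agent.H17.LL
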